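import Pool.Agent.Helper685.HG2

/-! # `L^p(μ)` is Hilbert generated (real and complex scalars, all universes) -/

set_option autoImplicit false
open MeasureTheory
open scoped ENNReal

namespace Pool.Agent.Results.MP_0eb56c_an.AllScalars

open Pool.Agent.Helper685.HG

/-- `X` is Hilbert generated: some bounded `𝕜`-linear operator from a Hilbert space over `𝕜`
into `X` has dense range. -/
def HilbertGenerated.{u} (𝕜 : Type) [RCLike 𝕜] (X : Type u) [NormedAddCommGroup X]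
    [NormedSpace 𝕜 X] : Prop :=
  ∃ (H : Type u) (_ : NormedAddCommGroup H) (_ : InnerProductSpace 𝕜 H) (_ : CompleteSpace H)
    (T : H →L[𝕜] X), DenseRange T

/-- main construction, with the explicit Hilbert space `ℓ²(Γ; 𝕜)` -/
theorem aux.{u} (𝕜 : Type) [RCLike 𝕜] (p : ℝ≥0∞) [Fact (1 ≤ p)] (hp : p ≠ ∞)
    (α : Type u) [MeasurableSpace α] (μ : Measure α) [IsFiniteMeasure μ] :
    ∃ (Γ : Type u) (T : lp (fun _ : Γ => 𝕜) 2 →L[𝕜] Lp 𝕜 p μ), DenseRange T := by
  rename_i m0 _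
  obtain ⟨m, hm⟩ := exists_nat_ge p.toReal
  obtain ⟨K, hK1, hK⟩ := pointwise m
  set c : ℝ := K⁻¹ with hc
  have hK0 : 0 < K := by linarith
  have hcpos : 0 < c := by positivity
  have hc1 : c ≤ 1 := inv_le_one_of_one_le₀ hK1
  have hcK : K * c ^ 2 ≤ 1 := by
    have : K * c ^ 2 = c := by rw [hc]; field_simp
    rw [this]; exact hc1
  let ι : Type u := {s : Set α // MeasurableSet s}
  let A : ι → Set α := fun s => s.1
  have hA : ∀ i, MeasurableSet (A i) := fun i => i.2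
  obtain ⟨_, _⟩ := exists_wellFoundedLT (α := ι)
  have hD : ∀ S : Finset ι, MemLp (DD μ A c S) p μ := DD_memLp μ A c p hA hcpos.le hc1
  have hpm : p ≤ ((2 * (m + 1) : ℕ) : ENNReal) := by
    rw [← ENNReal.ofReal_toReal hp, ← ENNReal.ofReal_natCast]
    apply ENNReal.ofReal_le_ofReal
    push_cast
    have : (0 : ℝ) ≤ m := Nat.cast_nonneg m
    linarith
  obtain ⟨C, hC, hbound⟩ := norm_bound μ A c p hp hA m K hcpos.le hc1 hcK hK1 hK hpm hD
  have hboundK : ∀ (s : Finset (Finset ι)) (a : Finset ι → 𝕜),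
      ‖∑ S ∈ s, a S • (JJ ((hD S).toLp (DD μ A c S)) : Lp 𝕜 p μ)‖ ≤
        (2 * C) * Real.sqrt (∑ S ∈ s, ‖a S‖ ^ 2) := by
    intro s a
    have e : ∑ S ∈ s, a S • (JJ ((hD S).toLp (DD μ A c S)) : Lp 𝕜 p μ) =
        JJ (∑ S ∈ s, (RCLike.re (a S)) • (hD S).toLp (DD μ A c S)) +
        (RCLike.I : 𝕜) • JJ (∑ S ∈ s, (RCLike.im (a S)) • (hD S).toLp (DD μ A c S)) := by
      rw [map_sum, map_sum, Finset.smul_sum, ← Finset.sum_add_distrib]
      refine Finset.sum_congr rfl fun S _ => ?_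
      rw [map_smul, map_smul, RCLike.real_smul_eq_coe_smul (K := 𝕜),
        RCLike.real_smul_eq_coe_smul (K := 𝕜), smul_smul, ← add_smul]
      congr 1
      rw [mul_comm]
      exact (RCLike.re_add_im _).symm
    rw [e]
    have hre : Real.sqrt (∑ S ∈ s, (RCLike.re (a S)) ^ 2) ≤ Real.sqrt (∑ S ∈ s, ‖a S‖ ^ 2) := by
      apply Real.sqrt_le_sqrt
      refine Finset.sum_le_sum fun S _ => ?_
      rw [← sq_abs]
      gcongr
      exact RCLike.abs_re_le_norm _
    have him : Real.sqrt (∑ S ∈ s, (RCLike.im (a S)) ^ 2) ≤ Real.sqrt (∑ S ∈ s, ‖a S‖ ^ 2) := by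
      apply Real.sqrt_le_sqrt
      refine Finset.sum_le_sum fun S _ => ?_
      rw [← sq_abs]
      gcongr
      exact RCLike.abs_im_le_norm _
    have h1 := (JJ_norm_le (𝕜 := 𝕜) (∑ S ∈ s, (RCLike.re (a S)) • (hD S).toLp (DD μ A c S))).trans
      (hbound s (fun S => RCLike.re (a S)))
    have h2 := (JJ_norm_le (𝕜 := 𝕜) (∑ S ∈ s, (RCLike.im (a S)) • (hD S).toLp (DD μ A c S))).trans
      (hbound s (fun S => RCLike.im (a S)))
    have hI : ‖(RCLike.I : 𝕜)‖ ≤ 1 := by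
      rcases RCLike.I_eq_zero_or_im_I_eq_one (K := 𝕜) with h | h
      · rw [h, norm_zero]; exact zero_le_one
      · have := RCLike.norm_I_of_ne_zero (K := 𝕜) (by
          intro h0; rw [h0] at h; simp at h)
        rw [this]
    calc _ ≤ ‖(JJ (∑ S ∈ s, (RCLike.re (a S)) • (hD S).toLp (DD μ A c S)) : Lp 𝕜 p μ)‖ +
          ‖(RCLike.I : 𝕜) • (JJ (∑ S ∈ s, (RCLike.im (a S)) • (hD S).toLp (DD μ A c S)) :
            Lp 𝕜 p μ)‖ := norm_add_le _ _
      _ ≤ C * Real.sqrt (∑ S ∈ s, ‖a S‖ ^ 2) + C * Real.sqrt (∑ S ∈ s, ‖a S‖ ^ 2) := by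
        refine add_le_add (h1.trans (by gcongr)) ?_
        rw [norm_smul]
        calc _ ≤ 1 * ‖(JJ (∑ S ∈ s, (RCLike.im (a S)) • (hD S).toLp (DD μ A c S)) :
            Lp 𝕜 p μ)‖ := by gcongr
          _ ≤ _ := by rw [one_mul]; exact h2.trans (by gcongr)
      _ = _ := by ring
  obtain ⟨T, hT⟩ := existsK_op (𝕜 := 𝕜)
    (fun S => (JJ ((hD S).toLp (DD μ A c S)) : Lp 𝕜 p μ)) (2 * C) hboundK (by positivity)
  refine ⟨Finset ι, T, ?_⟩
  have hsig : sig A Set.univ = m0 := by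
    apply le_antisymm (sig_le A hA Set.univ)
    intro s hs
    exact sig_mem A (I := Set.univ) (i := ⟨s, hs⟩) trivial
  -- the closure of the range contains every real function
  let R : Submodule 𝕜 (Lp 𝕜 p μ) :=
    (LinearMap.range (T : lp (fun _ : Finset ι => 𝕜) 2 →ₗ[𝕜] Lp 𝕜 p μ)).topologicalClosure
  have hreal : ∀ f : Lp ℝ p μ, (JJ f : Lp 𝕜 p μ) ∈ R := by
    intro f
    have hfW : f ∈ WW μ A c p hD Set.univ := by
      have h1 : StronglyMeasurable[sig A Set.univ] (f : α → ℝ) := by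
        rw [hsig]; exact Lp.stronglyMeasurable f
      have h2 := P_all μ A c p hp hA hD hcpos.ne' f h1 (Lp.memLp f)
      rwa [Lp.toLp_coeFn] at h2
    let R' : Submodule ℝ (Lp ℝ p μ) := (R.restrictScalars ℝ).comap
      (JJ (𝕜 := 𝕜) (p := p) (μ := μ)).toLinearMap
    have hR'cl : IsClosed (R' : Set (Lp ℝ p μ)) := by
      have hRc : IsClosed (R : Set (Lp 𝕜 p μ)) := Submodule.isClosed_topologicalClosure _
      exact hRc.preimage (JJ (𝕜 := 𝕜) (p := p) (μ := μ)).continuous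
    have hle : WW μ A c p hD Set.univ ≤ R' := by
      apply Submodule.topologicalClosure_minimal _ _ hR'cl
      rw [Submodule.span_le]
      rintro v ⟨S, _, rfl⟩
      change (JJ ((hD S).toLp (DD μ A c S)) : Lp 𝕜 p μ) ∈ R
      exact Submodule.le_topologicalClosure _ (hT S)
    exact hle hfW
  intro f
  obtain ⟨g, h, hf⟩ := decomp f
  have hmem : f ∈ R := by
    rw [hf]
    exact R.add_mem (hreal g) (R.smul_mem _ (hreal h))
  have h4 : f ∈ closure ((LinearMap.range (T : lp (fun _ : Finset ι => 𝕜) 2 →ₗ[𝕜] Lp 𝕜 p μ) :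
      Submodule 𝕜 (Lp 𝕜 p μ)) : Set (Lp 𝕜 p μ)) := hmem
  rw [LinearMap.coe_range] at h4
  exact h4

/-- For every exponent `1 ≤ p < ∞` and every finite measure `μ` (on a measurable space in any
universe), the real Banach space `L^p(μ; ℝ)` and the complex Banach space `L^p(μ; ℂ)` are Hilbert
generated. -/
theorem result.{u} (p : ℝ≥0∞) [Fact (1 ≤ p)] (hp : p ≠ ∞)
    (α : Type u) [MeasurableSpace α] (μ : Measure α) [IsFiniteMeasure μ] :
    HilbertGenerated ℝ (Lp ℝ p μ) ∧ HilbertGenerated ℂ (Lp ℂ p μ) := by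
  constructor
  · obtain ⟨Γ, T, hT⟩ := aux ℝ p hp α μ
    exact ⟨lp (fun _ : Γ => ℝ) 2, inferInstance, inferInstance, inferInstance, T, hT⟩
  · obtain ⟨Γ, T, hT⟩ := aux ℂ p hp α μ
    exact ⟨lp (fun _ : Γ => ℂ) 2, inferInstance, inferInstance, inferInstance, T, hT⟩

end Pool.Agent.Results.MP_0eb56c_an.AllScalars
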